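import Pool.Agent.Helper52.REC.FD3

set_option autoImplicit false

/-! REC, row FD2: a stable line gives the data of `FDat` in rank two. -/

open scoped Classical
open NumberField Polynomial

namespace Pool.Agent.Helper52.REC

open _root_.REC
open Pool.Agent.Helper13.ZL (Pl q)
open MU
open Pool.Agent.Helper61.REC

theorem perm2 : ∀ J : Finset (Fin 2), J.card = 1 → ∃ s : Equiv.Perm (Fin 2), J = {s 0} := by
  decide

theorem card2 (J : Finset (Fin 2)) (h : J.card = 2) : J = Finset.univ :=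
  Finset.eq_univ_of_card J (by rw [h, Fintype.card_fin])

/-- the characteristic polynomial in the presence of a line -/
theorem line_charpoly {k : Type} [Field k] (R : Matrix (Fin 2) (Fin 2) k)
    (B₁ : Matrix (Fin 2) (Fin 1) k) (a₁ : Matrix (Fin 1) (Fin 1) k)
    (C₁ : Matrix (Fin 1) (Fin 2) k) (h₁ : C₁ * B₁ = 1) (e₁ : R * B₁ = B₁ * a₁)
    (d₁ : a₁.det ≠ 0) :
    R.charpoly = (Polynomial.X - C a₁.det) * (Polynomial.X - C (R.det / a₁.det)) := by
  have c1 : a₁.charpoly.coeff 0 = - a₁.det := by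
    rw [charpoly_coeff_zero]
    ring
  have c2 : R.charpoly.coeff 0 = R.det := by
    rw [charpoly_coeff_zero]
    ring
  have q1 : a₁.charpoly = Polynomial.X - C a₁.det := by
    have h5 : a₁.charpoly = Polynomial.X + C (a₁.charpoly.coeff 0) := by
      refine a₁.charpoly_monic.eq_X_add_C ?_
      rw [Matrix.charpoly_natDegree_eq_dim, Fintype.card_fin]
    rw [h5, c1, C_neg, ← sub_eq_add_neg]
  have q2 := monic_dvd_succ R.charpoly_monic a₁.charpoly_monic (sub_charpoly_dvd h₁ e₁)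
    (by rw [Matrix.charpoly_natDegree_eq_dim, Matrix.charpoly_natDegree_eq_dim, Fintype.card_fin,
      Fintype.card_fin]) (by rw [c1]; exact neg_ne_zero.2 d₁)
  rw [c1, c2, q1, div_neg, neg_neg] at q2
  exact q2

section

variable {F : Type} [Field F] [NumberField F] {S : Finset ℕ} {w : ℕ} {h : Fin 2 → ℕ}

theorem inr_unip2 (M : Mot F S 2 w h) (l : ℕ) [Fact l.Prime]
    {r' : Gal F →* Matrix.GeneralLinearGroup (Fin 2) ℤ_[l]} (hE : EqvQ (M.ρ l) r') (p : ℕ)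
    (hp : p.Prime) (hpl : p ≠ l) (𝔓 : Ideal (Zb F)) (h𝔓 : Over p 𝔓) (σ : Gal F)
    (hσ : CongPow 𝔓 1 σ) : (res r' σ - 1) ^ 2 = 0 := by
  refine eqvQ_unip hE σ ?_
  by_cases hpS : p ∈ S
  · exact M.semistable l p hpS hpl 𝔓 h𝔓 σ hσ
  · have h1 := M.good l p hp hpS hpl 𝔓 h𝔓 σ hσ
    have h2 : rat (M.ρ l) σ = 1 := by
      rw [rat_coe, h1]
      ext i j
      rw [Matrix.map_apply, Units.val_one, Matrix.one_apply, Matrix.one_apply]
      split_ifs <;> simp
    rw [h2, sub_self]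
    exact zero_pow two_ne_zero

/-- the second part of the hypothesis of Fontaine and Laffaille at `l` -/
def Flt22 (l : ℕ) [Fact l.Prime] (h : Fin 2 → ℕ)
    (r' : Gal F →* Matrix.GeneralLinearGroup (Fin 2) ℤ_[l]) : Prop :=
  ∀ (k : Type) [Field k] (κ : ZMod l →+* k) (ι : 𝓞 (AlgebraicClosure F) →+* k) (m m' : ℕ)
      (B : Matrix (Fin 2) (Fin m) k) (A : Gal F → Matrix (Fin m) (Fin m) k)
      (B' : Matrix (Fin 2) (Fin m') k) (A' : Gal F → Matrix (Fin m') (Fin m') k)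
      (Y : Matrix (Fin m') (Fin m) k), IsSub (mapk κ (res r')) B A → IsSub (mapk κ (res r')) B' A' →
      B = B' * Y → ∀ v : Pl F, (l : 𝓞 F) ∈ v.asIdeal →
      ∃ J J' : (F →+* AlgebraicClosure F) → Finset (Fin 2),
        (∀ τ, J τ ⊆ J' τ ∧ (J τ).card = m ∧ (J' τ).card = m') ∧
        ∀ (π : 𝓞 F), π ∈ v.asIdeal → π ∉ v.asIdeal ^ 2 → ∀ 𝔓 : Ideal (Zb F), OverP v 𝔓 →
          ∀ σ : Gal F, CongPow 𝔓 1 σ → ∀ u : 𝓞 F, u ∉ v.asIdeal → Tm v 𝔓 π σ u →
            (A σ).det * tmp ι v (fun τ => ∑ j ∈ J τ, h j) u = 1 ∧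
            (A' σ).det * tmp ι v (fun τ => ∑ j ∈ J' τ, h j) u = 1

theorem dat_line (hOVP : ST_OVP) (M : Mot F S 2 w h) (l : ℕ) [Fact l.Prime]
    {r' : Gal F →* Matrix.GeneralLinearGroup (Fin 2) ℤ_[l]} (hE : EqvQ (M.ρ l) r')
    (hflt : Flt22 l h r') (k : Type) [Field k] (κ : ZMod l →+* k)
    (ι : 𝓞 (AlgebraicClosure F) →+* k) (hι : ι (l : 𝓞 (AlgebraicClosure F)) = 0)
    (B₁ : Matrix (Fin 2) (Fin 1) k) (A₁ : Gal F → Matrix (Fin 1) (Fin 1) k)
    (h₁ : IsSub (mapk κ (res r')) B₁ A₁) : FDat M l := by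
  have h₂ : IsSub (mapk κ (res r')) 1 (mapk κ (res r')) := IsSub.whole _
  set δ : Fin 2 → Gal F →* kˣ := ![subDet h₁, subDet h₂ / subDet h₁] with hδ
  have hδ0 : ∀ g, ((δ 0 g : kˣ) : k) = (A₁ g).det := fun g => rfl
  have hδ1 : ∀ g, ((δ 1 g : kˣ) : k) = (mapk κ (res r') g).det / (A₁ g).det := fun g => by
    have : δ 1 g = subDet h₂ g / subDet h₁ g := rfl
    rw [this, Units.val_div_eq_div_val, subDet_coe, subDet_coe]
  -- the characteristic polynomials
  have hcp : ∀ g, (mapk κ (res r') g).charpoly =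
      ∏ i, (Polynomial.X - C ((δ i g : kˣ) : k)) := by
    intro g
    obtain ⟨C₁, hC₁⟩ := h₁.1
    rw [Fin.prod_univ_two, hδ0, hδ1]
    exact line_charpoly _ B₁ (A₁ g) C₁ hC₁ (h₁.2 g) (subDet_ne h₁ g)
  have hcp2 : ∀ g, (res (M.ρ l) g).charpoly.map κ =
      ∏ i, (Polynomial.X - C ((δ i g : kˣ) : k)) := by
    intro g
    rw [← hcp, eqvQ_res_charpoly hE, ← Matrix.charpoly_map]
    rfl
  -- the exponents
  have hf1 := hflt k κ ι 1 2 B₁ A₁ 1 (mapk κ (res r')) B₁ h₁ h₂ (by rw [Matrix.one_mul])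
  choose! J1 J1' hJ1 hJ1' using hf1
  choose vt hvt hlv using plOf (F := F) ι l hι
  choose s hs using fun τ => perm2 (J1 (vt τ) τ) (hJ1 (vt τ) (hlv τ) τ).2.1
  refine ⟨k, inferInstance, κ, ι, δ, fun i τ => h (s τ i), fun τ => ⟨s τ, fun i => rfl⟩, ?_, ?_, ?_,
    hcp2⟩
  · -- open kernels
    intro i
    refine open_of_res (eqvQ_cont hE (M.continuous l)) _ ?_
    intro g hg
    have hg' : mapk κ (res r') g = 1 := by
      show (κ.mapMatrix (m := Fin 2)) (res r' g) = 1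
      rw [hg, map_one]
    rw [MonoidHom.mem_ker]
    have e1 := subDet_of_one h₁ g hg'
    have e2 := subDet_of_one h₂ g hg'
    fin_cases i
    · exact e1
    · show subDet h₂ g / subDet h₁ g = 1
      rw [e1, e2, div_one]
  · -- inertia away from `l`
    intro i v hv 𝔓 h𝔓 σ hσ
    obtain ⟨p, f, hp, -, -, hO, hpv⟩ := (hOVP F).2.2.2.1 v 𝔓 h𝔓
    have hpl : p ≠ l := by
      rintro rfl
      exact hv hpv
    have h1 := inr_unip2 M l hE p hp hpl 𝔓 hO σ hσ
    have h2 : (mapk κ (res r') σ - 1) ^ 2 = 0 := by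
      have h3 := congrArg (κ.mapMatrix (m := Fin 2)) h1
      rw [map_pow, map_sub, map_one, map_zero] at h3
      exact h3
    apply Units.ext
    rw [Units.val_one]
    refine unip_root _ h2 _ ?_
    rw [hcp, IsRoot.def, eval_prod]
    refine Finset.prod_eq_zero (Finset.mem_univ i) ?_
    rw [eval_sub, eval_X, eval_C, sub_self]
  · -- inertia at `l`
    intro i v hv π hπ hπ2 𝔓 h𝔓 σ hσ u hu hT
    obtain ⟨a1, a2⟩ := hJ1' v hv π hπ hπ2 𝔓 h𝔓 σ hσ u hu hT
    have hvv : ∀ τ, RingHom.ker (ι.comp (RingOfIntegers.mapRingHom τ)) = v.asIdeal → vt τ = v := by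
      intro τ hτ
      apply IsDedekindDomain.HeightOneSpectrum.ext
      rw [← hvt τ, hτ]
    set t : Fin 2 → k := fun i => tmp ι v (fun τ => h (s τ i)) u with ht
    have b1 : tmp ι v (fun τ => ∑ j ∈ J1 v τ, h j) u = t 0 := by
      refine tmp_congr ι v _ _ u fun τ hτ => ?_
      rw [← hvv τ hτ, hs τ, Finset.sum_singleton]
    have b2 : tmp ι v (fun τ => ∑ j ∈ J1' v τ, h j) u = t 0 * t 1 := by
      rw [ht, ← tmp_add]
      refine tmp_congr ι v _ _ u fun τ hτ => ?_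
      rw [card2 _ (hJ1 v hv τ).2.2, ← Equiv.sum_comp (s τ), Fin.sum_univ_two]
    rw [b1] at a1
    rw [b2] at a2
    have n1 := subDet_ne h₁ σ
    fin_cases i
    · show ((δ 0 σ : kˣ) : k) * t 0 = 1
      rw [hδ0]
      exact a1
    · show ((δ 1 σ : kˣ) : k) * t 1 = 1
      rw [hδ1]
      have : (mapk κ (res r') σ).det / (A₁ σ).det * t 1 =
          ((mapk κ (res r') σ).det * (t 0 * t 1)) / ((A₁ σ).det * t 0) := by
        have ht0 : t 0 ≠ 0 := right_ne_zero_of_mul_eq_one a1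
        field_simp
      rw [this, a2, a1, div_one]

end

theorem st_FD2 (hOVP : ST_OVP) : ST_FD2 := by
  intro F _ _ S hS w h M hFLT
  obtain ⟨c, hc⟩ := hFLT
  refine ⟨c, ?_⟩
  intro l _ hl k _ _ κ B₁ A₁ h₁
  obtain ⟨-, hf⟩ := hc l hl (M.ρ l) (eqvQ_refl _)
  obtain ⟨ι, hι⟩ := exists_iota F l k κ
  exact dat_line hOVP M l (eqvQ_refl _) (fun k => hf k) k κ ι hι B₁ A₁ h₁

end Pool.Agent.Helper52.REC
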