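import Pool.Agent.Helper57.REC.Stmts4

/-!
# Reciprocity: auxiliary primes (row AXP)
-/

set_option autoImplicit false

namespace REC

namespace AXP52

/-- a prime modulo which `p` has order `l ^ (N + 2)` -/
theorem exists_prime_order (p l N : ℕ) (hp : p.Prime) (hl : l.Prime) :
    ∃ m : ℕ, m.Prime ∧ m ≠ p ∧ orderOf (p : ZMod m) = l ^ (N + 2) := by
  have : Fact l.Prime := ⟨hl⟩
  have hl2 : 2 ≤ l := hl.two_le
  have hp2 : 2 ≤ p := hp.two_le
  set z : ℕ := p ^ l ^ N with hz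
  set x : ℕ := p ^ l ^ (N + 1) with hx
  have hxz : x = z ^ l := by rw [hx, hz, ← pow_mul, pow_succ]
  have hx2 : 2 ≤ x := by
    calc 2 ≤ p := hp2
      _ = p ^ 1 := (pow_one p).symm
      _ ≤ x := Nat.pow_le_pow_right (by omega) (Nat.one_le_pow _ _ (by omega))
  set Q : ℕ := ∑ i ∈ Finset.range l, x ^ i with hQ
  have hgeo : (Q : ℤ) * ((x : ℤ) - 1) = (x : ℤ) ^ l - 1 := by
    rw [hQ]
    push_cast
    exact geom_sum_mul _ _
  have hQl : l < Q := by
    obtain ⟨l', rfl⟩ : ∃ l', l = l' + 1 := ⟨l - 1, by omega⟩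
    rw [hQ, Finset.sum_range_succ']
    have h1 : ∑ i ∈ Finset.range l', 2 ≤ ∑ i ∈ Finset.range l', x ^ (i + 1) := by
      apply Finset.sum_le_sum
      intro i _
      calc 2 ≤ x := hx2
        _ = x ^ 1 := (pow_one x).symm
        _ ≤ x ^ (i + 1) := Nat.pow_le_pow_right (by omega) (by omega)
    rw [Finset.sum_const, Finset.card_range, smul_eq_mul] at h1
    simp only [pow_zero]
    omega
  have hcast : ∀ n : ℕ, (x : ZMod n) = 1 → (Q : ZMod n) = (l : ZMod n) := by
    intro n hn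
    rw [hQ]
    push_cast
    rw [hn]
    simp
  have hgeoZ : ∀ n : ℕ, (Q : ZMod n) = 0 → (x : ZMod n) ^ l = 1 := by
    intro n hn
    have h1 := congrArg (Int.cast : ℤ → ZMod n) hgeo
    push_cast at h1
    rw [hn, zero_mul] at h1
    exact (sub_eq_zero.1 h1.symm)
  have hex : ∃ m : ℕ, m.Prime ∧ m ∣ Q ∧ m ≠ l := by
    by_contra hcon
    push Not at hcon
    have hQ0 : Q ≠ 0 := by omega
    have h1 : Q = l ^ Q.primeFactorsList.length :=
      Nat.eq_prime_pow_of_unique_prime_dvd hQ0 fun {d} hd hdQ => hcon d hd hdQ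
    set j := Q.primeFactorsList.length with hj
    have hj2 : 2 ≤ j := by
      by_contra hlt
      have : j = 0 ∨ j = 1 := by omega
      rcases this with h | h
      · rw [h, pow_zero] at h1; omega
      · rw [h, pow_one] at h1; omega
    have hdiv2 : l ^ 2 ∣ Q := by
      rw [h1]
      exact pow_dvd_pow l hj2
    have hdiv1 : l ∣ Q := (dvd_pow_self l (by omega)).trans hdiv2
    have h2 : (x : ZMod l) ^ l = 1 := hgeoZ l ((ZMod.natCast_eq_zero_iff _ _).2 hdiv1)
    rw [ZMod.pow_card] at h2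
    have h3 : (z : ZMod l) = 1 := by
      have h4 : (x : ZMod l) = (z : ZMod l) ^ l := by rw [hxz]; push_cast; rfl
      rw [h2, ZMod.pow_card] at h4
      exact h4.symm
    have h5 : ((l : ℕ) : ℤ) ∣ (z : ℤ) - 1 := by
      rw [← ZMod.intCast_zmod_eq_zero_iff_dvd]
      push_cast
      rw [h3, sub_self]
    have h6 := dvd_sub_pow_of_dvd_sub (R := ℤ) (p := l) (a := (z : ℤ)) (b := 1) h5 1
    rw [pow_one, one_pow] at h6
    have h7 : (x : ZMod (l ^ 2)) = 1 := by
      have h8 : (((z : ℤ) ^ l - 1 : ℤ) : ZMod (l ^ 2)) = 0 := by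
        rw [ZMod.intCast_zmod_eq_zero_iff_dvd]
        push_cast
        exact h6
      push_cast at h8
      rw [hxz]
      push_cast
      exact sub_eq_zero.1 h8
    have h9 := hcast _ h7
    rw [(ZMod.natCast_eq_zero_iff _ _).2 hdiv2] at h9
    have h10 : l ^ 2 ∣ l := (ZMod.natCast_eq_zero_iff _ _).1 h9.symm
    have h11 := Nat.le_of_dvd (by omega) h10
    nlinarith
  obtain ⟨m, hm, hmQ, hml⟩ := hex
  have : Fact m.Prime := ⟨hm⟩
  have hQ0 : (Q : ZMod m) = 0 := (ZMod.natCast_eq_zero_iff _ _).2 hmQ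
  have hxl := hgeoZ m hQ0
  have hx1 : (x : ZMod m) ≠ 1 := by
    intro h
    have h1 := hcast m h
    rw [hQ0] at h1
    have h2 : m ∣ l := (ZMod.natCast_eq_zero_iff _ _).1 h1.symm
    exact hml ((Nat.prime_dvd_prime_iff_eq hm hl).1 h2)
  have hord : orderOf (p : ZMod m) = l ^ (N + 1 + 1) := by
    apply orderOf_eq_prime_pow
    · intro h
      apply hx1
      rw [hx]
      push_cast
      exact h
    · rw [hx] at hxl
      push_cast at hxl
      rw [← pow_mul, ← pow_succ] at hxl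
      exact hxl
  refine ⟨m, hm, ?_, hord⟩
  rintro rfl
  have h0 : ((m : ℕ) : ZMod m) = 0 := ZMod.natCast_self m
  rw [h0] at hord
  have h1 := pow_orderOf_eq_one (0 : ZMod m)
  rw [hord, zero_pow (by positivity)] at h1
  exact zero_ne_one h1

end AXP52

open AXP52 in
/-- AXP -/
theorem st_AXP : ST_AXP := by
  intro p f l k D hp hf hl hD ζ hζ
  set N : ℕ := k + f + D with hN
  obtain ⟨m, hm, hmp, hord⟩ := exists_prime_order p l N hp hl
  have : Fact m.Prime := ⟨hm⟩
  have hl2 : 2 ≤ l := hl.two_le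
  have hpow : ((p : ℕ) : ZMod m) ^ l ^ (N + 2) = 1 := by
    rw [← hord]
    exact pow_orderOf_eq_one _
  have hl0 : l ^ (N + 2) ≠ 0 := by positivity
  set U : (ZMod m)ˣ := Units.ofPowEqOne ((p : ℕ) : ZMod m) (l ^ (N + 2)) hpow hl0 with hU
  have hUv : (U : ZMod m) = (p : ZMod m) := rfl
  have hUo : orderOf U = l ^ (N + 2) := by
    rw [← orderOf_units, hUv, hord]
  have hmD : ¬ m ∣ D := by
    intro h
    have h1 := Nat.le_of_dvd hD h
    have h2 : orderOf U ∣ Fintype.card (ZMod m)ˣ := orderOf_dvd_card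
    rw [ZMod.card_units, hUo] at h2
    have h3 := Nat.le_of_dvd (by have := hm.two_le; omega) h2
    have h4 : N + 2 < l ^ (N + 2) := Nat.lt_pow_self (by omega)
    omega
  set u : (ZMod m)ˣ := U ^ f with hu
  have huo : l ^ k ∣ orderOf u := by
    rw [hu, orderOf_pow, hUo]
    obtain ⟨j, hj, hj'⟩ := (Nat.dvd_prime_pow hl).1 (Nat.gcd_dvd_left (l ^ (N + 2)) f)
    rw [hj']
    have h1 : l ^ j ∣ f := by rw [← hj']; exact Nat.gcd_dvd_right _ _
    have h2 := Nat.le_of_dvd hf h1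
    have h3 : j < l ^ j := Nat.lt_pow_self (by omega)
    rw [Nat.pow_div hj (by omega)]
    exact pow_dvd_pow l (by omega)
  have hζo : orderOf ζ ∣ orderOf u := (orderOf_dvd_of_pow_eq_one hζ).trans huo
  let g : Subgroup.zpowers u := ⟨u, Subgroup.mem_zpowers u⟩
  have hg : ∀ y : Subgroup.zpowers u, y ∈ Subgroup.zpowers g := by
    rintro ⟨y, hy⟩
    obtain ⟨i, rfl⟩ := hy
    exact ⟨i, by ext; rfl⟩
  have hgo : orderOf g = orderOf u := by
    rw [← Subgroup.orderOf_coe]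
  let lam1 : Subgroup.zpowers u →* ℂˣ :=
    monoidHomOfForallMemZpowers hg (g' := ζ) (by rw [hgo]; exact hζo)
  have hlam1 : lam1 g = ζ := monoidHomOfForallMemZpowers_apply_gen hg _
  obtain ⟨lam0, hlam0⟩ := MonoidHom.domRestrict_surjective ℂ (Subgroup.zpowers u) lam1
  have hlam0u : lam0 u = ζ := by
    rw [← hlam1, ← hlam0]
    rfl
  have hm1 : m - 1 ≠ 0 := by have := hm.two_le; omega
  obtain ⟨a, N', hN', hmN⟩ := Nat.exists_eq_pow_mul_and_not_dvd hm1 l hl.ne_one
  have hcop : Nat.Coprime (l ^ k) N' := by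
    apply Nat.Coprime.pow_left
    exact (Nat.Prime.coprime_iff_not_dvd hl).2 hN'
  obtain ⟨t, ht1, ht2⟩ := Nat.chineseRemainder hcop 1 0
  refine ⟨m, ⟨hm⟩, lam0 ^ t, hmD, hmp, ⟨a, ?_⟩, ?_⟩
  · ext v
    have h1 : m - 1 ∣ t * l ^ a := by
      rw [hmN, mul_comm (l ^ a)]
      exact mul_dvd_mul_right ((Nat.modEq_zero_iff_dvd).1 ht2) _
    have h2 : v ^ (t * l ^ a) = 1 := by
      obtain ⟨c, hc⟩ := h1
      rw [hc, pow_mul]
      have h3 : v ^ (m - 1) = 1 := by
        rw [← ZMod.card_units m]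
        exact pow_card_eq_one
      rw [h3, one_pow]
    rw [MonoidHom.pow_apply, MonoidHom.pow_apply, ← pow_mul, ← map_pow, h2, map_one,
      MonoidHom.one_apply]
  · intro v hv
    have h1 : v = u := by
      ext
      rw [hv, hu, Units.val_pow_eq_pow_val, hUv]
    rw [h1, MonoidHom.pow_apply, hlam0u]
    have h2 : ζ ^ t = ζ ^ 1 := by
      rw [pow_eq_pow_iff_modEq]
      exact Nat.ModEq.of_dvd (orderOf_dvd_of_pow_eq_one hζ) ht1
    rw [h2, pow_one]

end REC
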