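import Pool.Agent.Helper85.REC.Stmts10
import Pool.Agent.Helper22.MU.END

set_option autoImplicit false

/-! REC, row CMT: irreducible representations of rank two or three over a finite prime field with
an endomorphism which is not a scalar. -/

open scoped Classical
open Polynomial

namespace Pool.Agent.Helper52.REC

open _root_.REC
open MU

/-- the columns of `P` are common eigenvectors -/
theorem cmt_diag {G : Type} [Group G] {l : ℕ} [Fact l.Prime] {k : Type} [Field k] [IsAlgClosed k]
    (κ : ZMod l →+* k) {n : ℕ} (hn : 2 ≤ n) (hn' : n ≤ 3)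
    (r : G →* Matrix (Fin n) (Fin n) (ZMod l)) (u : Matrix (Fin n) (Fin n) (ZMod l))
    (hr : IsIrr r) (hu : ∀ g, u * r g = r g * u)
    (hns : ∀ a : ZMod l, u ≠ a • (1 : Matrix (Fin n) (Fin n) (ZMod l))) :
    ∃ (P Q : Matrix (Fin n) (Fin n) k) (d : G → Fin n → k), Q * P = 1 ∧
      ∀ g, mapk κ r g * P = P * Matrix.diagonal (d g) := by
  have hroot : ∀ c, ¬ u.charpoly.IsRoot c := by
    intro c hc
    have h1 : (Matrix.scalar (Fin n) c - u).det = 0 := by
      rw [← Matrix.eval_charpoly]
      exact hc
    obtain ⟨v, hv, hv0⟩ := Matrix.exists_mulVec_eq_zero_iff.2 h1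
    have h2 : u.mulVec v = c • v := by
      rw [Matrix.sub_mulVec, Matrix.scalar_apply, ← Matrix.smul_one_eq_diagonal,
        Matrix.smul_mulVec, Matrix.one_mulVec, sub_eq_zero] at hv0
      exact hv0.symm
    exact hns c (end_eig hr u (fun g => (hu g).symm) v hv c h2)
  have hdeg : u.charpoly.natDegree = n := by
    rw [Matrix.charpoly_natDegree_eq_dim, Fintype.card_fin]
  have hirr : Irreducible u.charpoly :=
    Polynomial.irreducible_of_degree_le_three_of_not_isRoot
      (by rw [hdeg, Finset.mem_Icc]; exact ⟨by omega, hn'⟩) hroot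
  have hsep : u.charpoly.Separable := PerfectField.separable_of_irreducible hirr
  have hsep' : (u.charpoly.map κ).Separable := hsep.map
  have hcard : (u.charpoly.map κ).roots.toFinset.card = n := by
    rw [Multiset.toFinset_card_of_nodup (nodup_roots hsep')]
    rw [Polynomial.splits_iff_card_roots.1 (IsAlgClosed.splits _), Polynomial.natDegree_map, hdeg]
  let e := (Finset.equivFinOfCardEq hcard).symm
  let lam : Fin n → k := fun i => ((e i : (u.charpoly.map κ).roots.toFinset) : k)
  have hlam : Function.Injective lam := Subtype.val_injective.comp e.injective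
  let U : Matrix (Fin n) (Fin n) k := u.map κ
  have hev : ∀ i, ∃ v : Fin n → k, v ≠ 0 ∧ U.mulVec v = lam i • v := by
    intro i
    have h0 : (u.charpoly.map κ).IsRoot (lam i) := by
      have h1 : lam i ∈ (u.charpoly.map κ).roots.toFinset := (e i).2
      rw [Multiset.mem_toFinset] at h1
      exact isRoot_of_mem_roots h1
    have h1 : (Matrix.scalar (Fin n) (lam i) - U).det = 0 := by
      rw [← Matrix.eval_charpoly]
      have h2 : U.charpoly = u.charpoly.map κ := Matrix.charpoly_map u κ
      rw [h2]
      exact h0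
    obtain ⟨v, hv, hv0⟩ := Matrix.exists_mulVec_eq_zero_iff.2 h1
    refine ⟨v, hv, ?_⟩
    rw [Matrix.sub_mulVec, Matrix.scalar_apply, ← Matrix.smul_one_eq_diagonal,
        Matrix.smul_mulVec, Matrix.one_mulVec, sub_eq_zero] at hv0
    exact hv0.symm
  choose v hv hv2 using hev
  have hli : LinearIndependent k v := by
    refine Module.End.eigenvectors_linearIndependent' U.mulVecLin lam hlam v ?_
    intro i
    rw [Module.End.hasEigenvector_iff, Module.End.mem_eigenspace_iff]
    exact ⟨hv2 i, hv i⟩
  let P : Matrix (Fin n) (Fin n) k := Matrix.of fun a i => v i a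
  have hP : IsUnit P := by
    rw [← Matrix.linearIndependent_cols_iff_isUnit]
    exact hli
  have hPdet : IsUnit P.det := (Matrix.isUnit_iff_isUnit_det P).1 hP
  have hUP : U * P = P * Matrix.diagonal lam := by
    ext a i
    rw [Matrix.mul_diagonal]
    have h1 := congrFun (hv2 i) a
    rw [Matrix.mul_apply]
    rw [Matrix.mulVec, dotProduct] at h1
    rw [show ∑ j, U a j * P j i = ∑ j, U a j * v i j from rfl, h1, Pi.smul_apply, smul_eq_mul,
      mul_comm]
    rfl
  have hcomm : ∀ g, U * mapk κ r g = mapk κ r g * U := by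
    intro g
    have h1 := congrArg (κ.mapMatrix (m := Fin n)) (hu g)
    rw [map_mul, map_mul] at h1
    exact h1
  refine ⟨P, P⁻¹, fun g i => (P⁻¹ * mapk κ r g * P) i i, Matrix.nonsing_inv_mul P hPdet, ?_⟩
  intro g
  set D := P⁻¹ * mapk κ r g * P with hD
  have h1 : P * D = mapk κ r g * P := by
    rw [hD, ← Matrix.mul_assoc, ← Matrix.mul_assoc, Matrix.mul_nonsing_inv P hPdet,
      Matrix.one_mul]
  have h2 : D * Matrix.diagonal lam = Matrix.diagonal lam * D := by
    have h3 : P * (D * Matrix.diagonal lam) = P * (Matrix.diagonal lam * D) := by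
      calc P * (D * Matrix.diagonal lam) = mapk κ r g * (P * Matrix.diagonal lam) := by
            rw [← Matrix.mul_assoc, h1, Matrix.mul_assoc]
        _ = U * mapk κ r g * P := by rw [← hUP, ← Matrix.mul_assoc, hcomm]
        _ = U * P * D := by rw [Matrix.mul_assoc, ← h1, ← Matrix.mul_assoc]
        _ = P * (Matrix.diagonal lam * D) := by rw [hUP, Matrix.mul_assoc]
    have h4 := congrArg (fun Z => P⁻¹ * Z) h3
    simp only [← Matrix.mul_assoc, Matrix.nonsing_inv_mul P hPdet, Matrix.one_mul] at h4
    exact h4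
  rw [← h1]
  congr 1
  ext i j
  rw [Matrix.diagonal_apply]
  split_ifs with hij
  · rw [hij]
  · have h3 := congrFun (congrFun h2 i) j
    rw [Matrix.mul_diagonal, Matrix.diagonal_mul] at h3
    have h4 : D i j * (lam j - lam i) = 0 := by
      rw [mul_sub, h3]
      ring
    rcases mul_eq_zero.1 h4 with h5 | h5
    · exact h5
    · exact absurd (hlam (sub_eq_zero.1 h5)).symm hij

/-- some of the columns -/
theorem cmt_sub {G : Type} [Group G] {k : Type} [Field k] {n m : ℕ}
    (R : G →* Matrix (Fin n) (Fin n) k) (P Q : Matrix (Fin n) (Fin n) k) (d : G → Fin n → k)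
    (hQP : Q * P = 1) (hP : ∀ g, R g * P = P * Matrix.diagonal (d g)) (e : Fin m → Fin n)
    (he : Function.Injective e) :
    IsSub R (P.submatrix id e) (fun g => Matrix.diagonal fun i => d g (e i)) := by
  refine ⟨⟨Q.submatrix e id, ?_⟩, fun g => ?_⟩
  · rw [← Matrix.submatrix_mul Q P e id e Function.bijective_id, hQP, Matrix.submatrix_one e he]
  · ext a i
    have h1 := congrFun (congrFun (hP g) a) (e i)
    rw [Matrix.mul_diagonal] at h1 ⊢
    exact h1

theorem st_CMT : ST_CMT := by
  intro G _ l _ k _ _ κ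
  constructor
  · intro r u hr hu hns
    obtain ⟨P, Q, d, hQP, hP⟩ := cmt_diag κ (by norm_num) (by norm_num) r u hr hu hns
    exact ⟨_, _, cmt_sub (mapk κ r) P Q d hQP hP ![0] (Function.injective_of_subsingleton _)⟩
  · intro r u hr hu hns
    obtain ⟨P, Q, d, hQP, hP⟩ := cmt_diag κ (by norm_num) (by norm_num) r u hr hu hns
    refine ⟨_, _, _, _, (1 : Matrix (Fin 2) (Fin 2) k).submatrix id ![0],
      cmt_sub (mapk κ r) P Q d hQP hP ![0] (Function.injective_of_subsingleton _),
      cmt_sub (mapk κ r) P Q d hQP hP ![0, 1] (by decide), ?_⟩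
    ext a i
    fin_cases i
    simp [Matrix.mul_apply, Matrix.submatrix_apply, Matrix.one_apply]

end Pool.Agent.Helper52.REC
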