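import Pool.Agent.Helper61.REC.DATc
import Pool.Agent.Helper85.REC.Stmts10

set_option autoImplicit false

/-! REC, row FD3: a stable flag gives the data of `FDat`. -/

open scoped Classical
open NumberField Polynomial

namespace Pool.Agent.Helper52.REC

open _root_.REC
open Pool.Agent.Helper13.ZL (Pl q)
open MU
open Pool.Agent.Helper61.REC

/-- the integers of the algebraic closure map to every algebraically closed field of characteristic
`l` -/
theorem exists_iota (F : Type) [Field F] [NumberField F] (l : ℕ) [Fact l.Prime] (k : Type)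
    [Field k] [IsAlgClosed k] (κ : ZMod l →+* k) :
    ∃ ι : 𝓞 (AlgebraicClosure F) →+* k, ι (l : 𝓞 (AlgebraicClosure F)) = 0 := by
  have hl : l.Prime := Fact.out
  have hlp : Prime (l : ℤ) := Nat.prime_iff_prime_int.1 hl
  have hsp : (Ideal.span {(l : ℤ)}).IsPrime := (Ideal.span_singleton_prime hlp.ne_zero).2 hlp
  have hsm : (Ideal.span {(l : ℤ)}).IsMaximal :=
    hsp.isMaximal (by
      intro h0
      rw [Ideal.span_singleton_eq_bot] at h0
      exact hlp.ne_zero h0)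
  obtain ⟨P, hP, hPm⟩ := Ideal.exists_ideal_over_prime_of_isIntegral_of_isDomain
      (S := 𝓞 (AlgebraicClosure F)) (Ideal.span {(l : ℤ)}) (by
        rw [(RingHom.injective_iff_ker_eq_bot _).1
          (FaithfulSMul.algebraMap_injective ℤ (𝓞 (AlgebraicClosure F)))]
        exact bot_le)
  have hPmax : P.IsMaximal := by
    refine Ideal.isMaximal_of_isIntegral_of_isMaximal_comap (R := ℤ) P ?_
    rw [hPm]
    exact hsm
  have hlP : (l : 𝓞 (AlgebraicClosure F)) ∈ P := by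
    have h1 : (l : ℤ) ∈ P.comap (algebraMap ℤ (𝓞 (AlgebraicClosure F))) := by
      rw [hPm]
      exact Ideal.mem_span_singleton_self _
    rw [Ideal.mem_comap] at h1
    simpa using h1
  let inst1 : Field (𝓞 (AlgebraicClosure F) ⧸ P) := Ideal.Quotient.field P
  have hl0 : ((l : ℕ) : 𝓞 (AlgebraicClosure F) ⧸ P) = 0 := by
    have h1 : Ideal.Quotient.mk P (l : 𝓞 (AlgebraicClosure F)) = 0 :=
      Ideal.Quotient.eq_zero_iff_mem.2 hlP
    rw [map_natCast] at h1
    exact h1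
  have hch : CharP (𝓞 (AlgebraicClosure F) ⧸ P) l := by
    obtain ⟨p, hp⟩ := CharP.exists (𝓞 (AlgebraicClosure F) ⧸ P)
    have h1 : p ∣ l := (CharP.cast_eq_zero_iff (𝓞 (AlgebraicClosure F) ⧸ P) p l).1 hl0
    rcases (Nat.dvd_prime hl).1 h1 with h2 | h2
    · subst h2
      exact absurd (CharP.cast_eq_zero (𝓞 (AlgebraicClosure F) ⧸ P) 1)
        (by rw [Nat.cast_one]; exact one_ne_zero)
    · rw [← h2]
      exact hp
  let inst2 : Algebra (ZMod l) (𝓞 (AlgebraicClosure F) ⧸ P) := ZMod.algebra _ l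
  let inst3 : Algebra (ZMod l) k := κ.toAlgebra
  have halg : Algebra.IsAlgebraic (ZMod l) (𝓞 (AlgebraicClosure F) ⧸ P) := by
    refine ⟨fun x => ?_⟩
    obtain ⟨y, rfl⟩ := Ideal.Quotient.mk_surjective x
    obtain ⟨f, hf, hfy⟩ : IsIntegral ℤ y := RingOfIntegers.isIntegral y
    have h1 : IsIntegral (ZMod l) (Ideal.Quotient.mk P y) := by
      refine ⟨f.map (Int.castRingHom (ZMod l)), hf.map _, ?_⟩
      rw [eval₂_map]
      have h2 : (algebraMap (ZMod l) (𝓞 (AlgebraicClosure F) ⧸ P)).comp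
          (Int.castRingHom (ZMod l)) = (Ideal.Quotient.mk P).comp
            (algebraMap ℤ (𝓞 (AlgebraicClosure F))) := RingHom.ext_int _ _
      rw [h2, ← hom_eval₂, hfy, map_zero]
    exact h1.isAlgebraic
  let φ : (𝓞 (AlgebraicClosure F) ⧸ P) →ₐ[ZMod l] k := IsAlgClosed.lift
  refine ⟨(φ : (𝓞 (AlgebraicClosure F) ⧸ P) →+* k).comp (Ideal.Quotient.mk P), ?_⟩
  have h1 : Ideal.Quotient.mk P (l : 𝓞 (AlgebraicClosure F)) = 0 :=
    Ideal.Quotient.eq_zero_iff_mem.2 hlP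
  rw [RingHom.comp_apply, h1, map_zero]

theorem eqvQ_refl {G : Type} [Group G] {n l : ℕ} [Fact l.Prime]
    (r : G →* Matrix.GeneralLinearGroup (Fin n) ℤ_[l]) : EqvQ r r :=
  ⟨1, fun g => by rw [Units.val_one, one_mul, mul_one]⟩

theorem st_FD3 (hOVP : ST_OVP) : ST_FD3 := by
  intro F _ _ S hS w h M hFLT
  obtain ⟨c, hc⟩ := hFLT
  refine ⟨c, ?_⟩
  intro l _ hl k _ _ κ B₁ A₁ B₂ A₂ Y h₁ h₂ hY
  obtain ⟨-, hf⟩ := hc l hl (M.ρ l) (eqvQ_refl _)
  obtain ⟨ι, hι⟩ := exists_iota F l k κ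
  exact dat_one hOVP M l (eqvQ_refl _) (fun k => hf k) k κ ι hι B₁ A₁ B₂ A₂ Y h₁ h₂ hY

end Pool.Agent.Helper52.REC
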