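import Pool.Agent.Helper57.REC.Stmts3

/-!
# Reciprocity: Hilbert 90 for `T`-units (row H1S)
-/

set_option autoImplicit false

open scoped Classical
open NumberField IsDedekindDomain

namespace REC

open Pool.Agent.Helper13.ZL (Pl q HasMean)

namespace H1S52

/-- a product of powers of places: divisibility by powers -/
theorem prod_le_iff {F : Type} [Field F] [NumberField F] (m : Pl F → ℕ) (S : Finset (Pl F))
    (hS : ∀ v : Pl F, m v ≠ 0 → v ∈ S) (v : Pl F) (k : ℕ) :
    (∏ w ∈ S, w.asIdeal ^ m w) ≤ v.asIdeal ^ k ↔ k ≤ m v := by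
  have hv0 : v.asIdeal ≠ 0 := v.ne_bot
  have hvp : Prime v.asIdeal := v.prime
  have hnd : ∀ w : Pl F, w ≠ v → ¬ v.asIdeal ∣ w.asIdeal ^ m w := by
    intro w hwv h
    have h1 := hvp.dvd_of_dvd_pow h
    have h2 : w.asIdeal ≤ v.asIdeal := Ideal.dvd_iff_le.1 h1
    have h3 : w.asIdeal = v.asIdeal := w.isMaximal.eq_of_le v.isPrime.ne_top h2
    exact hwv (HeightOneSpectrum.ext h3)
  rw [← Ideal.dvd_iff_le]
  by_cases hvS : v ∈ S
  · rw [← Finset.mul_prod_erase S _ hvS]
    constructor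
    · intro h
      have hr : ¬ v.asIdeal ∣ ∏ w ∈ S.erase v, w.asIdeal ^ m w := by
        intro h1
        obtain ⟨w, hw, hw'⟩ := hvp.exists_mem_finset_dvd h1
        exact hnd w (Finset.ne_of_mem_erase hw) hw'
      have h2 := hvp.pow_dvd_of_dvd_mul_right k hr h
      exact (pow_dvd_pow_iff hv0 hvp.not_isUnit).1 h2
    · intro h
      exact (pow_dvd_pow _ h).trans (dvd_mul_right _ _)
  · have hm : m v = 0 := by
      by_contra h
      exact hvS (hS v h)
    rw [hm]
    constructor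
    · intro h
      by_contra hk
      have hk' : k ≠ 0 := by omega
      have h1 : v.asIdeal ∣ ∏ w ∈ S, w.asIdeal ^ m w := (dvd_pow_self _ hk').trans h
      obtain ⟨w, hw, hw'⟩ := hvp.exists_mem_finset_dvd h1
      refine hnd w ?_ hw'
      rintro rfl
      exact hvS hw
    · intro h
      have : k = 0 := by omega
      rw [this, pow_zero]
      exact one_dvd _

theorem val_exp {K : Type} [Field K] [NumberField K] (P : Pl K) (z : 𝓞 K) (hz : z ≠ 0) :
    ∃ n : ℕ, P.valuation K (z : K) = WithZero.exp (-(n : ℤ)) := by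
  have h : P.valuation K (z : K) = P.intValuation z := HeightOneSpectrum.valuation_of_algebraMap P z
  rw [h]
  exact ⟨_, P.intValuation_if_neg hz⟩

theorem val_of_mem {K : Type} [Field K] [NumberField K] (P : Pl K) (z : 𝓞 K) (hz : z ≠ 0) (m : ℕ)
    (h : ∀ k : ℕ, z ∈ P.asIdeal ^ k ↔ k ≤ m) :
    P.valuation K (z : K) = WithZero.exp (-(m : ℤ)) := by
  obtain ⟨n, hn⟩ := val_exp P z hz
  have h0 : P.valuation K (z : K) = P.intValuation z := HeightOneSpectrum.valuation_of_algebraMap P z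
  have h1 : ∀ k : ℕ, z ∈ P.asIdeal ^ k ↔ k ≤ n := by
    intro k
    rw [← P.intValuation_le_pow_iff_mem, ← h0, hn, WithZero.exp_le_exp]
    omega
  have h2 : m ≤ n := (h1 m).1 ((h m).2 le_rfl)
  have h3 : n ≤ m := (h n).1 ((h1 n).2 le_rfl)
  rw [hn, le_antisymm h3 h2]

end H1S52

open H1S52 in
/-- H1S -/
theorem st_H1S : ST_POV → ST_H1S := by
  intro hPOV F L _ _ _ _ _ _ σ hσ T TL hTL hunr hcl x hx hnx
  obtain ⟨hov, hex, hτ, hτov, htr, -, -, -⟩ := hPOV F L
  have hfd : FiniteDimensional F L := by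
    exact Module.Finite.of_restrictScalars_finite ℚ F L
  -- Hilbert 90
  have hcyc : IsCyclic (L ≃ₐ[F] L) := ⟨⟨σ, fun τ => by
    obtain ⟨k, rfl⟩ := hσ τ
    exact ⟨k, by simp⟩⟩⟩
  obtain ⟨y0, hy0⟩ := groupCohomology.exists_div_of_norm_eq_one (K := F) (L := L) (g := σ)
    (fun τ => by
      obtain ⟨k, rfl⟩ := hσ τ
      exact ⟨k, by simp⟩) hnx
  have hy00 : (y0 : L) ≠ 0 := y0.ne_zero
  -- an integral element
  obtain ⟨z, hz0, hz⟩ : ∃ z : 𝓞 L, z ≠ 0 ∧ σ (z : L) = (x : L) * (z : L) := by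
    have halg : IsAlgebraic ℤ ((y0 : L)⁻¹) := by
      have h1 : IsAlgebraic ℚ ((y0 : L)⁻¹) := Algebra.IsAlgebraic.isAlgebraic _
      exact (IsFractionRing.isAlgebraic_iff ℤ ℚ L).2 h1
    obtain ⟨d, hd, hint⟩ := halg.exists_integral_multiple
    have hdL : (d : L) ≠ 0 := by exact_mod_cast hd
    refine ⟨⟨d • (y0 : L)⁻¹, hint⟩, ?_, ?_⟩
    · intro h
      have h1 := congrArg (fun w : 𝓞 L => (w : L)) h
      simp only [zsmul_eq_mul] at h1
      exact (mul_ne_zero hdL (inv_ne_zero hy00)) h1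
    · have hs0 : σ (y0 : L) ≠ 0 := (map_ne_zero σ).2 hy00
      change σ (d • (y0 : L)⁻¹) = (x : L) * (d • (y0 : L)⁻¹)
      rw [← hy0, zsmul_eq_mul, map_mul, map_intCast, map_inv₀]
      field_simp
  have hzL : (z : L) ≠ 0 := by
    intro h
    exact hz0 (by ext; simpa using h)
  have hxL : ((x : Lˣ) : L) ≠ 0 := x.ne_zero
  -- stability
  have hstab : ∀ w : L, (∀ P : Pl L, P ∉ TL → P.valuation L w = 1) →
      ∀ P : Pl L, P ∉ TL → P.valuation L (σ w) = 1 := by
    intro w hw P hP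
    obtain ⟨P', hP', -⟩ := hτ σ⁻¹ P
    obtain ⟨v, hv, -⟩ := hov P
    have hv' : OvL v P' := hτov σ⁻¹ P P' hP' v hv
    have hP'T : P' ∉ TL := by
      intro h
      obtain ⟨v', hv'T, hv'P⟩ := (hTL P').1 h
      have : v' = v := (hov P').unique hv'P hv'
      rw [this] at hv'T
      exact hP ((hTL P).2 ⟨v, hv'T, hv⟩)
    rw [← hP' (σ w)]
    have : (σ⁻¹ : L ≃ₐ[F] L) (σ w) = w := σ.symm_apply_apply w
    rw [this]
    exact hw P' hP'T
  have hstabk : ∀ (k : ℕ) (P : Pl L), P ∉ TL → P.valuation L ((σ ^ k) (x : L)) = 1 := by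
    intro k
    induction k with
    | zero =>
      intro P hP
      rw [pow_zero]
      exact hx P hP
    | succ k ih =>
      intro P hP
      rw [pow_succ']
      exact hstab _ ih P hP
  have hzk : ∀ (k : ℕ) (P : Pl L), P ∉ TL → P.valuation L ((σ ^ k) (z : L)) =
      P.valuation L (z : L) := by
    intro k
    induction k with
    | zero =>
      intro P _
      rw [pow_zero]
      rfl
    | succ k ih =>
      intro P hP
      rw [pow_succ]
      change P.valuation L ((σ ^ k) (σ (z : L))) = _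
      rw [hz, map_mul, map_mul, hstabk k P hP, one_mul, ih P hP]
  have hsame : ∀ (v : Pl F) (P P' : Pl L), P' ∉ TL → OvL v P → OvL v P' →
      P'.valuation L (z : L) = P.valuation L (z : L) := by
    intro v P P' hP' hv hv'
    obtain ⟨τ, hτP⟩ := htr v P P' hv hv'
    obtain ⟨k, rfl⟩ := hσ τ
    rw [← hτP, hzk k P' hP']
  -- the exponents
  choose M hM using fun P : Pl L => val_exp P z hz0
  have hMfin : {P : Pl L | M P ≠ 0}.Finite := by
    have hI : (Ideal.span {z} : Ideal (𝓞 L)) ≠ 0 := by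
      rw [Ne, Ideal.zero_eq_bot, Ideal.span_singleton_eq_bot]
      exact hz0
    refine (Ideal.finite_factors hI).subset ?_
    intro P hP
    have h0 : P.valuation L (z : L) = P.intValuation z :=
      HeightOneSpectrum.valuation_of_algebraMap P z
    change P.asIdeal ∣ _
    rw [← P.intValuation_lt_one_iff_dvd, ← h0, hM P, ← WithZero.exp_zero, WithZero.exp_lt_exp]
    have : 0 < M P := Nat.pos_of_ne_zero hP
    omega
  have hne : ∀ v : Pl F, ∃ P : Pl L, OvL v P := by
    intro v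
    obtain ⟨P⟩ := (hex v).2.1
    exact ⟨P.1, P.2⟩
  choose P0 hP0 using hne
  have hP0inj : Function.Injective P0 := by
    intro v w hvw
    have h1 := hP0 v
    rw [hvw] at h1
    exact (hov (P0 w)).unique h1 (hP0 w)
  set m : Pl F → ℕ := fun v => if v ∈ T then 0 else M (P0 v) with hm
  have hmfin : {v : Pl F | m v ≠ 0}.Finite := by
    refine (hMfin.preimage hP0inj.injOn).subset ?_
    intro v hv
    change M (P0 v) ≠ 0
    intro h
    apply hv
    simp only [hm]
    split
    · rfl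
    · exact h
  have hS : ∀ v : Pl F, m v ≠ 0 → v ∈ hmfin.toFinset := fun v hv => by
    rw [Set.Finite.mem_toFinset]
    exact hv
  have hIbot : (∏ w ∈ hmfin.toFinset, w.asIdeal ^ m w : Ideal (𝓞 F)) ≠ ⊥ := by
    rw [← Ideal.zero_eq_bot, Finset.prod_ne_zero_iff]
    intro w _
    exact pow_ne_zero _ w.ne_bot
  obtain ⟨a, ha0, ha⟩ := hcl _ hIbot
  have haF : (a : F) ≠ 0 := by
    intro h
    exact ha0 (by ext; simpa using h)
  have haL : algebraMap F L (a : F) ≠ 0 := (map_ne_zero _).2 haF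
  have hav : ∀ v : Pl F, v ∉ T → v.valuation F (a : F) = WithZero.exp (-(m v : ℤ)) := by
    intro v hv
    refine val_of_mem v a ha0 (m v) ?_
    intro k
    rw [ha v hv k, prod_le_iff m _ hS v k]
  refine ⟨Units.mk0 ((z : L) / algebraMap F L (a : F)) (div_ne_zero hzL haL), ?_, ?_⟩
  · intro P hP
    obtain ⟨v, hv, -⟩ := hov P
    have hvT : v ∉ T := by
      intro h
      exact hP ((hTL P).2 ⟨v, h, hv⟩)
    have h1 : P.valuation L (algebraMap F L (a : F)) = WithZero.exp (-(m v : ℤ)) := by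
      rw [hunr v hvT P hv, hav v hvT]
    have h2 : P.valuation L (z : L) = WithZero.exp (-(m v : ℤ)) := by
      rw [hsame v (P0 v) P hP (hP0 v) hv, hM (P0 v)]
      simp [hm, hvT]
    rw [Units.val_mk0, map_div₀, h1, h2]
    exact div_self WithZero.exp_ne_zero
  · rw [Units.val_mk0, map_div₀, AlgEquiv.commutes, hz]
    field_simp

end REC
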